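import Mathlib

set_option autoImplicit false
set_option linter.unusedSectionVars false
set_option linter.style.haveILetI false

/-! Commutative domains of characteristic 3 with a residue map, cube roots and solutions of
`y - y ^ 3 = z`, and the twisted nonassociative product on them. -/

namespace Pool.Agent.Helper36.SF

/-- A residue map to `ZMod 3`, cube roots and solutions of the Artin-Schreier equation. -/
class AS3 (Q : Type) [CommRing Q] where
  eps : Q →+* ZMod 3
  root : ∀ x : Q, ∃ y, y ^ 3 = x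
  as : ∀ z, eps z = 0 → ∃ y, eps y = 0 ∧ y - y ^ 3 = z

open AS3

section
variable {Q : Type} [CommRing Q] [IsDomain Q] [CharP Q 3] [AS3 Q]

lemma zmod_cube (x : ZMod 3) : x ^ 3 = x := by
  haveI : Fact (Nat.Prime 3) := ⟨Nat.prime_three⟩
  exact ZMod.pow_card x

lemma cube_add (a b : Q) : (a + b) ^ 3 = a ^ 3 + b ^ 3 := by
  haveI : Fact (Nat.Prime 3) := ⟨Nat.prime_three⟩
  exact add_pow_char a b 3

lemma cube_sub (a b : Q) : (a - b) ^ 3 = a ^ 3 - b ^ 3 := by
  haveI : Fact (Nat.Prime 3) := ⟨Nat.prime_three⟩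
  exact sub_pow_char a b

lemma cube_neg (a : Q) : (-a) ^ 3 = -a ^ 3 := by ring

lemma three_eq : (3 : Q) = 0 := by
  have := CharP.cast_eq_zero Q 3
  simpa using this

lemma eps_root {v u : Q} (h : v ^ 3 = u) : eps v = eps u := by
  rw [← h, map_pow, zmod_cube]

/-- the additive polynomial `w^27 - w^81` -/
def L (w : Q) : Q := w ^ 27 - w ^ 81

lemma L_add (a b : Q) : L (a + b) = L a + L b := by
  unfold L
  have h27 : ∀ x y : Q, (x + y) ^ 27 = x ^ 27 + y ^ 27 := by
    intro x y
    have : (x + y) ^ 27 = (((x + y) ^ 3) ^ 3) ^ 3 := by ring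
    rw [this, cube_add, cube_add, cube_add]; ring
  have h81 : (a + b) ^ 81 = a ^ 81 + b ^ 81 := by
    have : (a + b) ^ 81 = ((a + b) ^ 27) ^ 3 := by ring
    rw [this, h27, cube_add]; ring
  rw [h27, h81]; ring

lemma L_neg (a : Q) : L (-a) = - L a := by
  unfold L; ring

lemma L_inj {w : Q} (hw : eps w = 0) (h : L w = 0) : w = 0 := by
  have h1 : w ^ 27 * (1 - w ^ 54) = 0 := by
    have : w ^ 27 * (1 - w ^ 54) = L w := by unfold L; ring
    rw [this, h]
  rcases mul_eq_zero.mp h1 with h2 | h2
  · exact pow_eq_zero_iff (by norm_num) |>.mp h2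
  · exfalso
    have h3 : w ^ 54 = 1 := (sub_eq_zero.mp h2).symm
    have h4 : (eps w : ZMod 3) ^ 54 = 1 := by rw [← map_pow, h3, map_one]
    rw [hw, zero_pow (by norm_num)] at h4
    exact absurd h4 (by decide)

lemma L_exists (z : Q) (hz : eps z = 0) : ∃ w : Q, eps w = 0 ∧ L w = z := by
  obtain ⟨y, hy, hyz⟩ := AS3.as z hz
  obtain ⟨y1, h1⟩ := AS3.root y
  obtain ⟨y2, h2⟩ := AS3.root y1
  obtain ⟨y3, h3⟩ := AS3.root y2
  refine ⟨y3, ?_, ?_⟩
  · rw [eps_root h3, eps_root h2, eps_root h1, hy]
  · unfold L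
    have : y3 ^ 27 - y3 ^ 81 = ((y3 ^ 3) ^ 3) ^ 3 - ((((y3 ^ 3) ^ 3) ^ 3)) ^ 3 := by ring
    rw [this, h3, h2, h1, hyz]

open Classical in
/-- the inverse of `L` on the kernel of `eps` -/
noncomputable def R (z : Q) : Q := if h : eps z = 0 then (L_exists z h).choose else 0

lemma eps_R (z : Q) : eps (R z) = 0 := by
  unfold R
  split_ifs with h
  · exact (L_exists z h).choose_spec.1
  · exact map_zero _

lemma L_R {z : Q} (h : eps z = 0) : L (R z) = z := by
  unfold R
  rw [dif_pos h]
  exact (L_exists z h).choose_spec.2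

lemma R_eq {z w : Q} (hw : eps w = 0) (h : L w = z) : R z = w := by
  have hz : eps z = 0 := by
    rw [← h]; unfold L; rw [map_sub, map_pow, map_pow, hw]; simp
  have h1 : L (R z - w) = 0 := by
    rw [sub_eq_add_neg, L_add, L_neg, L_R hz, h]; ring
  have h2 : eps (R z - w) = 0 := by rw [map_sub, eps_R, hw, sub_zero]
  exact sub_eq_zero.mp (L_inj h2 h1)

lemma R_add {z z' : Q} (h : eps z = 0) (h' : eps z' = 0) : R (z + z') = R z + R z' := by
  apply R_eq
  · rw [map_add, eps_R, eps_R, add_zero]
  · rw [L_add, L_R h, L_R h']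

lemma R_neg {z : Q} (h : eps z = 0) : R (-z) = - R z := by
  apply R_eq
  · rw [map_neg, eps_R, neg_zero]
  · rw [L_neg, L_R h]

lemma R_zero : R (0 : Q) = 0 := by
  apply R_eq
  · exact map_zero _
  · unfold L; ring

/-- `a b^3 - a^3 b` -/
def D (a b : Q) : Q := a * b ^ 3 - a ^ 3 * b

lemma eps_D (a b : Q) : eps (D a b) = 0 := by
  unfold D
  rw [map_sub, map_mul, map_mul, map_pow, map_pow, zmod_cube, zmod_cube, sub_self]

/-- the bracket -/
noncomputable def br (a b : Q) : Q := R (D a b)

lemma eps_br (a b : Q) : eps (br a b) = 0 := eps_R _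

lemma br_add_left (a a' b : Q) : br (a + a') b = br a b + br a' b := by
  unfold br
  rw [← R_add (eps_D _ _) (eps_D _ _)]
  congr 1
  unfold D
  rw [cube_add]; ring

lemma br_add_right (a b b' : Q) : br a (b + b') = br a b + br a b' := by
  unfold br
  rw [← R_add (eps_D _ _) (eps_D _ _)]
  congr 1
  unfold D
  rw [cube_add]; ring

lemma br_self (a : Q) : br a a = 0 := by
  unfold br
  have : D a a = 0 := by unfold D; ring
  rw [this, R_zero]

lemma br_swap (a b : Q) : br b a = - br a b := by
  unfold br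
  rw [← R_neg (eps_D _ _)]
  congr 1
  unfold D; ring

/-- cube roots from brackets -/
lemma root_formula {u v : Q} (hu : eps u = 0) (h : v ^ 3 = u) :
    v = -(br (u ^ 3) (u ^ 8) + br (u ^ 5) (u ^ 4) + br u (u ^ 6)) := by
  have hv : eps v = 0 := by rw [eps_root h, hu]
  have key : br (u ^ 3) (u ^ 8) + br (u ^ 5) (u ^ 4) + br u (u ^ 6) = -v := by
    unfold br
    rw [← R_add (eps_D _ _) (eps_D _ _), ← R_add _ (eps_D _ _)]
    · apply R_eq
      · rw [map_neg, hv, neg_zero]
      · rw [L_neg]
        unfold L D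
        rw [← h]; ring
    · rw [map_add, eps_D, eps_D, add_zero]
  rw [key, neg_neg]

/-- the new product -/
noncomputable def P (a b : Q) : Q := a * b + br a b

lemma P_add_right (a b c : Q) : P a (b + c) = P a b + P a c := by
  unfold P; rw [br_add_right]; ring

lemma P_add_left (a b c : Q) : P (a + b) c = P a c + P b c := by
  unfold P; rw [br_add_left]; ring

lemma P_zero_left (a : Q) : P 0 a = 0 := by
  unfold P br D
  have : (0 : Q) * a ^ 3 - 0 ^ 3 * a = 0 := by ring
  rw [this, R_zero]; ring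

lemma P_zero_right (a : Q) : P a 0 = 0 := by
  unfold P br D
  have : a * (0 : Q) ^ 3 - a ^ 3 * 0 = 0 := by ring
  rw [this, R_zero]; ring

/-- the underlying type with its new product -/
def N (Q : Type) : Type := Q

noncomputable instance : AddCommGroup (N Q) := inferInstanceAs (AddCommGroup Q)

noncomputable instance : NonUnitalNonAssocRing (N Q) :=
  { (inferInstance : AddCommGroup (N Q)) with
    mul := fun a b => (P (Q := Q) a b : Q)
    left_distrib := fun a b c => P_add_right (Q := Q) a b c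
    right_distrib := fun a b c => P_add_left (Q := Q) a b c
    zero_mul := fun a => P_zero_left (Q := Q) a
    mul_zero := fun a => P_zero_right (Q := Q) a }

lemma mul_def (a b : N Q) : a * b = (P (Q := Q) a b : Q) := rfl

end

end Pool.Agent.Helper36.SF
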