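import Pool.Agent.Helper36.SF.Simple

set_option autoImplicit false
set_option linter.unusedSectionVars false

namespace Pool.Agent.Helper36.SF

open AS3

section
variable {Q : Type} [CommRing Q] [IsDomain Q] [CharP Q 3] [AS3 Q]

lemma map_R (ρ : Q →+* Q) (hρ : ∀ q, eps (ρ q) = eps q) {z : Q} (hz : eps z = 0) :
    ρ (R z) = R (ρ z) := by
  symm
  apply R_eq
  · rw [hρ, eps_R]
  · have : L (ρ (R z)) = ρ (L (R z)) := by unfold L; simp
    rw [this, L_R hz]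

lemma map_P (ρ : Q →+* Q) (hρ : ∀ q, eps (ρ q) = eps q) (a b : Q) :
    ρ (P a b) = P (ρ a) (ρ b) := by
  unfold P br
  rw [map_add, map_mul, map_R ρ hρ (eps_D a b)]
  congr 2
  unfold D; simp

variable {c : Q}

lemma map_A (ρ : Q →+* Q) (hρ : ∀ q, eps (ρ q) = eps q) (hl : InA c (ρ c)) {a : Q}
    (ha : InA c a) : InA c (ρ a) := by
  refine A_induction (p := fun x => InA c (ρ x)) hl ?_ ?_ ?_ ?_ ha
  · rw [map_zero]; exact A_zero
  · intro a b ha hb; rw [map_add]; exact A_add ha hb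
  · intro a ha; rw [map_neg]; exact A_neg ha
  · intro a b ha hb; rw [map_P ρ hρ]; exact A_P ha hb

/-- the induced endomorphism -/
noncomputable def endo (ρ : Q →+* Q) (hρ : ∀ q, eps (ρ q) = eps q) (hl : InA c (ρ c)) :
    A c →ₙ+* A c where
  toFun x := ⟨(ρ x.1 : Q), map_A ρ hρ hl x.2⟩
  map_zero' := Subtype.ext (map_zero ρ)
  map_add' x y := Subtype.ext (map_add ρ x.1 y.1)
  map_mul' x y := Subtype.ext (map_P ρ hρ x.1 y.1)

theorem main_abs (hc : eps c = 0) (hc0 : c ≠ 0)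
    (hsub : ∀ l : Q, eps l = 0 → ∃ ρ : Q →+* Q, ρ c = l ∧ ∀ q, eps (ρ q) = eps q) :
    ∃ (R : Type) (_ : NonUnitalNonAssocRing R) (p : ℕ),
      p.Prime ∧ 3 ≤ p ∧ (∀ r : R, p • r = 0) ∧
      IsSimpleOrder (TwoSidedIdeal R) ∧ (∃ a b : R, a * b ≠ 0) ∧
      ∃ X : Set R,
        (∀ S : NonUnitalSubring R, X ⊆ (S : Set R) → S = ⊤) ∧
        ∀ f : R → R, ∃ φ : R →ₙ+* R, ∀ x ∈ X, φ x = f x := by
  refine ⟨A c, inferInstance, 3, Nat.prime_three, le_rfl, ?_, simple hc hc0, ?_, ?_⟩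
  · intro r
    have h3 := three_eq (Q := Q)
    have h1 : ∀ q : Q, q + q + q = 0 := by
      intro q
      linear_combination q * h3
    have h2 : 3 • r = r + r + r := by rw [succ_nsmul, two_nsmul]
    rw [h2]
    exact Subtype.ext (h1 r.1)
  · refine ⟨⟨c, A_c (Q := Q) (c := c)⟩, ⟨c, A_c (Q := Q) (c := c)⟩, ?_⟩
    intro h
    have h2 : P (Q := Q) c c = 0 := congrArg Subtype.val h
    unfold P at h2
    rw [br_self, add_zero] at h2
    exact hc0 (mul_self_eq_zero.mp h2)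
  · refine ⟨{⟨c, A_c (Q := Q) (c := c)⟩}, ?_, ?_⟩
    · intro S hS
      have hcS : (⟨c, A_c (Q := Q) (c := c)⟩ : A c) ∈ S := hS rfl
      have key : ∀ x : Q, InA c x → ∃ h : InA c x, (⟨x, h⟩ : A c) ∈ S := by
        intro x hx
        refine A_induction (p := fun x => ∃ h : InA c x, (⟨x, h⟩ : A c) ∈ S)
          ⟨A_c, hcS⟩ ⟨A_zero, S.zero_mem⟩ ?_ ?_ ?_ hx
        · rintro a b ⟨ha, ha'⟩ ⟨hb, hb'⟩
          exact ⟨A_add ha hb, S.add_mem ha' hb'⟩
        · rintro a ⟨ha, ha'⟩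
          exact ⟨A_neg ha, S.neg_mem ha'⟩
        · rintro a b ⟨ha, ha'⟩ ⟨hb, hb'⟩
          exact ⟨A_P ha hb, S.mul_mem ha' hb'⟩
      rw [NonUnitalSubring.eq_top_iff']
      intro x
      obtain ⟨_, h⟩ := key x.1 x.2
      exact h
    · intro f
      have hl : InA c (f ⟨c, A_c (Q := Q) (c := c)⟩).1 := (f ⟨c, A_c (Q := Q) (c := c)⟩).2
      obtain ⟨ρ, hρc, hρ⟩ := hsub _ (A_eps hc hl)
      refine ⟨endo (c := c) ρ hρ (by rw [hρc]; exact hl), ?_⟩
      intro x hx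
      rw [Set.mem_singleton_iff] at hx
      rw [hx]
      exact Subtype.ext hρc

end

end Pool.Agent.Helper36.SF
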