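import Pool.Agent.Helper36.SF.Basic

set_option autoImplicit false
set_option linter.unusedSectionVars false

namespace Pool.Agent.Helper36.SF

open AS3 Polynomial

section
variable {Q : Type} [CommRing Q] [IsDomain Q] [CharP Q 3] [AS3 Q]

/-- the subring generated by `c` for the new product -/
noncomputable def A (c : Q) : NonUnitalSubring (N Q) := NonUnitalSubring.closure {(c : N Q)}

/-- membership, stated in `Q` -/
def InA (c x : Q) : Prop := (x : N Q) ∈ A c

variable {c : Q}

lemma A_c : InA c c := NonUnitalSubring.subset_closure rfl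

lemma A_zero : InA c (0 : Q) := (A c).zero_mem

lemma A_add {a b : Q} (ha : InA c a) (hb : InA c b) : InA c (a + b) := (A c).add_mem ha hb

lemma A_neg {a : Q} (ha : InA c a) : InA c (-a) := (A c).neg_mem ha

lemma A_sub {a b : Q} (ha : InA c a) (hb : InA c b) : InA c (a - b) := (A c).sub_mem ha hb

lemma A_P {a b : Q} (ha : InA c a) (hb : InA c b) : InA c (P a b) := (A c).mul_mem ha hb

lemma A_induction {p : Q → Prop} (h1 : p c) (h0 : p 0)
    (hadd : ∀ a b, p a → p b → p (a + b)) (hneg : ∀ a, p a → p (-a))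
    (hP : ∀ a b, p a → p b → p (P a b)) {a : Q} (ha : InA c a) : p a := by
  have : ∀ x : N Q, x ∈ A c → p x := by
    intro x hx
    induction hx using NonUnitalSubring.closure_induction with
    | mem x hx => rw [Set.mem_singleton_iff.mp hx]; exact h1
    | zero => exact h0
    | add x y _ _ hx hy => exact hadd _ _ hx hy
    | neg x _ hx => exact hneg _ hx
    | mul x y _ _ hx hy => exact hP _ _ hx hy
  exact this a ha

lemma A_eps (hc : eps c = 0) {a : Q} (ha : InA c a) : eps a = 0 := by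
  refine A_induction (p := fun x => eps x = 0) hc (map_zero _) ?_ ?_ ?_ ha
  · intro a b ha hb; rw [map_add, ha, hb, add_zero]
  · intro a ha; rw [map_neg, ha, neg_zero]
  · intro a b ha hb; unfold P; rw [map_add, map_mul, ha, hb, eps_br]; simp

lemma mul_eq_P (a b : Q) : a * b = -(P a b + P b a) := by
  unfold P
  rw [br_swap a b]
  have h3 := three_eq (Q := Q)
  linear_combination (a * b) * h3

lemma br_eq_P (a b : Q) : br a b = P a b - a * b := by
  unfold P; ring

lemma A_mul {a b : Q} (ha : InA c a) (hb : InA c b) : InA c (a * b) := by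
  rw [mul_eq_P]; exact A_neg (A_add (A_P ha hb) (A_P hb ha))

lemma A_br {a b : Q} (ha : InA c a) (hb : InA c b) : InA c (br a b) := by
  rw [br_eq_P]; exact A_sub (A_P ha hb) (A_mul ha hb)

lemma A_pow {a : Q} (ha : InA c a) (n : ℕ) : InA c (a ^ (n + 1)) := by
  induction n with
  | zero => simpa using ha
  | succ n ih => rw [pow_succ]; exact A_mul ih ha

lemma A_root (hc : eps c = 0) {u v : Q} (hu : InA c u) (h : v ^ 3 = u) : InA c v := by
  rw [root_formula (A_eps hc hu) h]
  exact A_neg (A_add (A_add (A_br (A_pow hu 2) (A_pow hu 7)) (A_br (A_pow hu 4) (A_pow hu 3)))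
    (A_br hu (A_pow hu 5)))

/-! ### ideals -/

/-- membership in an ideal, stated in `Q` -/
def InJ (I : TwoSidedIdeal (A c)) (x : Q) : Prop := ∃ h : InA c x, (⟨x, h⟩ : A c) ∈ I

variable {I : TwoSidedIdeal (A c)}

lemma J_A {x : Q} (h : InJ I x) : InA c x := h.1

lemma J_zero : InJ I (0 : Q) := ⟨A_zero, I.zero_mem⟩

lemma J_add {a b : Q} (ha : InJ I a) (hb : InJ I b) : InJ I (a + b) := by
  obtain ⟨ha, ha'⟩ := ha
  obtain ⟨hb, hb'⟩ := hb
  exact ⟨A_add ha hb, I.add_mem ha' hb'⟩

lemma J_neg {a : Q} (ha : InJ I a) : InJ I (-a) := by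
  obtain ⟨ha, ha'⟩ := ha
  exact ⟨A_neg ha, I.neg_mem ha'⟩

lemma J_sub {a b : Q} (ha : InJ I a) (hb : InJ I b) : InJ I (a - b) := by
  rw [sub_eq_add_neg]; exact J_add ha (J_neg hb)

lemma J_P_left {a b : Q} (ha : InJ I a) (hb : InA c b) : InJ I (P a b) := by
  obtain ⟨ha, ha'⟩ := ha
  exact ⟨A_P ha hb, I.mul_mem_right (⟨a, ha⟩ : A c) (⟨b, hb⟩ : A c) ha'⟩

lemma J_P_right {a b : Q} (ha : InA c a) (hb : InJ I b) : InJ I (P a b) := by
  obtain ⟨hb, hb'⟩ := hb
  exact ⟨A_P ha hb, I.mul_mem_left (⟨a, ha⟩ : A c) (⟨b, hb⟩ : A c) hb'⟩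

lemma J_mul {a b : Q} (ha : InJ I a) (hb : InA c b) : InJ I (a * b) := by
  rw [mul_eq_P]; exact J_neg (J_add (J_P_left ha hb) (J_P_right hb ha))

lemma J_br {a b : Q} (ha : InJ I a) (hb : InA c b) : InJ I (br a b) := by
  rw [br_eq_P]; exact J_sub (J_P_left ha hb) (J_mul ha hb)

lemma J_pow {a : Q} (ha : InJ I a) (n : ℕ) : InJ I (a ^ (n + 1)) := by
  induction n with
  | zero => simpa using ha
  | succ n ih => rw [pow_succ]; exact J_mul ih ha.1

lemma J_br' {a b : Q} (ha : InA c a) (hb : InA c b) (h : InJ I (a - b)) : InJ I (br a b) := by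
  have : br a b = br (a - b) b := by
    have h1 : a = (a - b) + b := by ring
    conv_lhs => rw [h1]
    rw [br_add_left, br_self, add_zero]
  rw [this]
  exact J_br h hb

lemma J_root (hc : eps c = 0) {u v : Q} (hu : InJ I u) (h : v ^ 3 = u) : InJ I v := by
  rw [root_formula (A_eps hc hu.1) h]
  exact J_neg (J_add (J_add (J_br (J_pow hu 2) (A_pow hu.1 7))
    (J_br (J_pow hu 4) (A_pow hu.1 3))) (J_br hu (A_pow hu.1 5)))

/-- an element of `A` which is idempotent modulo an ideal lies in the ideal -/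
lemma J_idem (hc : eps c = 0) {e : Q} (he : InA c e) (h : InJ I (e ^ 2 - e)) : InJ I e := by
  have hpow : ∀ n : ℕ, InJ I (e ^ (n + 1) - e) := by
    intro n
    induction n with
    | zero => simpa using J_zero
    | succ n ih =>
      have : e ^ (n + 1 + 1) - e = (e ^ (n + 1) - e) * e + (e ^ 2 - e) := by ring
      rw [this]
      exact J_add (J_mul ih he) h
  obtain ⟨v, hv⟩ := AS3.root e
  have hvA : InA c v := A_root hc he hv
  have hvJ : InJ I v := by
    rw [root_formula (A_eps hc he) hv]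
    have key : ∀ m n : ℕ, InJ I (br (e ^ (m + 1)) (e ^ (n + 1))) := by
      intro m n
      apply J_br' (A_pow he m) (A_pow he n)
      have : e ^ (m + 1) - e ^ (n + 1) = (e ^ (m + 1) - e) - (e ^ (n + 1) - e) := by ring
      rw [this]
      exact J_sub (hpow m) (hpow n)
    refine J_neg (J_add (J_add (key 2 7) (key 4 3)) ?_)
    simpa using key 0 5
  rw [← hv]
  exact J_pow hvJ 2

end

end Pool.Agent.Helper36.SF
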