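import Pool.Agent.Helper36.SF.Free

set_option autoImplicit false

namespace Pool.Agent.Helper36.SF

open AS3

instance fact3 : Fact (Nat.Prime 3) := ⟨Nat.prime_three⟩

/-- power series over the field with three elements -/
abbrev RR : Type := PowerSeries (ZMod 3)

instance : CharP RR 3 := charP_of_injective_algebraMap (algebraMap (ZMod 3) RR).injective 3

/-- its perfect closure -/
abbrev QQ : Type := PerfectClosure RR 3

/-- the embedding -/
noncomputable abbrev ofQ : RR →+* QQ := PerfectClosure.of RR 3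

lemma ofQ_inj : Function.Injective ofQ := by
  intro a b h
  have := (PerfectClosure.eq_iff RR 3 (0, a) (0, b)).mp h
  simpa using this

lemma exists_of (x : QQ) : ∃ (n : ℕ) (r : RR), x ^ (3 ^ n) = ofQ r := by
  obtain ⟨⟨n, r⟩, rfl⟩ := PerfectClosure.mk_surjective RR 3 x
  refine ⟨n, r, ?_⟩
  have := PerfectClosure.iterate_frobenius_mk RR 3 n r
  rw [iterate_frobenius] at this
  exact this

lemma exists_root (n : ℕ) (x : QQ) : ∃ y : QQ, y ^ (3 ^ n) = x := by
  obtain ⟨y, hy⟩ := (bijective_iterateFrobenius (R := QQ) (p := 3) n).2 x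
  exact ⟨y, by rw [← hy, iterateFrobenius_def]⟩

lemma pow_inj (n : ℕ) {x y : QQ} (h : x ^ (3 ^ n) = y ^ (3 ^ n)) : x = y := by
  apply (bijective_iterateFrobenius (R := QQ) (p := 3) n).1
  rw [iterateFrobenius_def, iterateFrobenius_def, h]

instance : NoZeroDivisors QQ := by
  refine ⟨?_⟩
  intro a b hab
  obtain ⟨n, r, hr⟩ := exists_of a
  obtain ⟨m, s, hs⟩ := exists_of b
  have h0 : ofQ (r * s) = 0 := by
    rw [map_mul, ← hr, ← hs]
    have h1 : (3 : ℕ) ^ n = (3 ^ n - 1) + 1 := (Nat.sub_add_cancel (Nat.one_le_pow _ _ (by norm_num))).symm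
    have h2 : (3 : ℕ) ^ m = (3 ^ m - 1) + 1 := (Nat.sub_add_cancel (Nat.one_le_pow _ _ (by norm_num))).symm
    rw [h1, h2, pow_succ, pow_succ]
    linear_combination (a ^ (3 ^ n - 1) * b ^ (3 ^ m - 1)) * hab
  have h1 : r * s = 0 := ofQ_inj (by rw [h0, map_zero])
  rcases mul_eq_zero.mp h1 with h | h
  · left
    rw [h, map_zero] at hr
    exact eq_zero_of_pow_eq_zero hr
  · right
    rw [h, map_zero] at hs
    exact eq_zero_of_pow_eq_zero hs

instance : IsDomain QQ := NoZeroDivisors.to_isDomain QQ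

/-- the residue map -/
noncomputable def epsQ : QQ →+* ZMod 3 :=
  PerfectClosure.lift RR 3 (ZMod 3) (PowerSeries.constantCoeff (R := ZMod 3))

lemma epsQ_of (r : RR) : epsQ (ofQ r) = PowerSeries.constantCoeff r := by
  have h := (PerfectClosure.lift RR 3 (ZMod 3)).symm_apply_apply
    (PowerSeries.constantCoeff (R := ZMod 3))
  exact RingHom.congr_fun h r

lemma zmod_pow (n : ℕ) (x : ZMod 3) : x ^ (3 ^ n) = x := by
  induction n with
  | zero => simp
  | succ n ih => rw [pow_succ, pow_mul, ih, zmod_cube]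

/-- the series `Y` with `Y - Y ^ 3 = X` -/
noncomputable def invS : RR :=
  letI : Invertible (PowerSeries.coeff 1 (PowerSeries.X - PowerSeries.X ^ 3 : RR)) :=
    ⟨1, by simp [PowerSeries.coeff_X_pow], by simp [PowerSeries.coeff_X_pow]⟩
  PowerSeries.substInv (PowerSeries.X - PowerSeries.X ^ 3 : RR)

lemma invS_const : PowerSeries.constantCoeff invS = 0 := by
  unfold invS
  simp

lemma invS_eq : invS - invS ^ 3 = PowerSeries.X := by
  letI : Invertible (PowerSeries.coeff 1 (PowerSeries.X - PowerSeries.X ^ 3 : RR)) :=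
    ⟨1, by simp [PowerSeries.coeff_X_pow], by simp [PowerSeries.coeff_X_pow]⟩
  have h := PowerSeries.subst_substInv_right (PowerSeries.X - PowerSeries.X ^ 3 : RR) (by simp)
  have hs : PowerSeries.HasSubst invS := PowerSeries.HasSubst.of_constantCoeff_zero' invS_const
  change PowerSeries.subst invS (PowerSeries.X - PowerSeries.X ^ 3 : RR) = PowerSeries.X at h
  rw [PowerSeries.subst_sub hs, PowerSeries.subst_pow hs, PowerSeries.subst_X hs] at h
  exact h

/-- substitution as a ring homomorphism -/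
noncomputable def sub (r : RR) (hr : PowerSeries.constantCoeff r = 0) : RR →+* RR :=
  (PowerSeries.substAlgHom (R := ZMod 3)
    (PowerSeries.HasSubst.of_constantCoeff_zero' hr)).toRingHom

lemma sub_X (r : RR) (hr : PowerSeries.constantCoeff r = 0) : sub r hr PowerSeries.X = r := by
  unfold sub
  exact PowerSeries.substAlgHom_X (PowerSeries.HasSubst.of_constantCoeff_zero' hr)

lemma sub_const (r : RR) (hr : PowerSeries.constantCoeff r = 0) (f : RR) :
    PowerSeries.constantCoeff (sub r hr f) = PowerSeries.constantCoeff f := by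
  obtain ⟨g, hg⟩ : PowerSeries.X ∣ f - PowerSeries.C (PowerSeries.constantCoeff f) := by
    rw [PowerSeries.X_dvd_iff]; simp
  have h1 : f = PowerSeries.X * g + algebraMap (ZMod 3) RR (PowerSeries.constantCoeff f) := by
    rw [← hg]; simp
  have h2 : sub r hr f = r * sub r hr g + algebraMap (ZMod 3) RR (PowerSeries.constantCoeff f) := by
    conv_lhs => rw [h1]
    rw [map_add, map_mul, sub_X]
    congr 1
    exact AlgHom.commutes (PowerSeries.substAlgHom (R := ZMod 3)
      (PowerSeries.HasSubst.of_constantCoeff_zero' hr)) _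
  rw [h2]
  simp [hr]

noncomputable instance : AS3 QQ where
  eps := epsQ
  root x := by
    obtain ⟨y, hy⟩ := exists_root 1 x
    exact ⟨y, by simpa using hy⟩
  as z hz := by
    obtain ⟨n, l, hl⟩ := exists_of z
    have hl0 : PowerSeries.constantCoeff l = 0 := by
      rw [← epsQ_of, ← hl, map_pow, hz, zero_pow (by positivity)]
    obtain ⟨y, hy⟩ := exists_root n (ofQ (sub l hl0 invS))
    refine ⟨y, ?_, ?_⟩
    · have h1 : epsQ y ^ (3 ^ n) = 0 := by
        rw [← map_pow, hy, epsQ_of, sub_const, invS_const]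
      rwa [zmod_pow] at h1
    · apply pow_inj n
      rw [sub_pow_char_pow, ← pow_mul, mul_comm 3, pow_mul, hy, hl, ← map_pow, ← map_pow,
        ← map_sub, ← map_sub, invS_eq, sub_X]

lemma eps_eq (q : QQ) : (eps q : ZMod 3) = epsQ q := rfl

lemma eps_X : eps (ofQ PowerSeries.X) = 0 := by
  rw [eps_eq, epsQ_of]; simp

lemma ofX_ne : ofQ PowerSeries.X ≠ 0 := by
  intro h
  have : (PowerSeries.X : RR) = 0 := ofQ_inj (by rw [h, map_zero])
  exact PowerSeries.X_ne_zero this

lemma subst_exists (l : QQ) (hl : eps l = 0) :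
    ∃ ρ : QQ →+* QQ, ρ (ofQ PowerSeries.X) = l ∧ ∀ q, eps (ρ q) = eps q := by
  obtain ⟨n, r, hr⟩ := exists_of l
  have hr0 : PowerSeries.constantCoeff r = 0 := by
    rw [← epsQ_of, ← hr, map_pow]
    change (eps l) ^ (3 ^ n) = 0
    rw [hl, zero_pow (by positivity)]
  let g : QQ →+* QQ := PerfectClosure.lift RR 3 QQ (ofQ.comp (sub r hr0))
  have hg : ∀ f, g (ofQ f) = ofQ (sub r hr0 f) := by
    intro f
    have h := (PerfectClosure.lift RR 3 QQ).symm_apply_apply (ofQ.comp (sub r hr0))
    exact RingHom.congr_fun h f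
  let ρ : QQ →+* QQ := ((iterateFrobeniusEquiv QQ 3 n).symm : QQ ≃+* QQ).toRingHom.comp g
  have hρ : ∀ q, (ρ q) ^ (3 ^ n) = g q := by
    intro q
    have := (iterateFrobeniusEquiv QQ 3 n).apply_symm_apply (g q)
    rw [iterateFrobeniusEquiv_def] at this
    exact this
  refine ⟨ρ, ?_, ?_⟩
  · apply pow_inj n
    rw [hρ, hg, sub_X, hr]
  · intro q
    have key : (epsQ.comp ρ) = epsQ := by
      apply (PerfectClosure.lift RR 3 (ZMod 3)).symm.injective
      change (epsQ.comp ρ).comp ofQ = epsQ.comp ofQ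
      ext f
      change epsQ (ρ (ofQ f)) = epsQ (ofQ f)
      rw [← zmod_pow n (epsQ (ρ (ofQ f))), ← map_pow, hρ, hg, epsQ_of, epsQ_of, sub_const]
    exact RingHom.congr_fun key q

theorem main :
    ∃ (R : Type) (_ : NonUnitalNonAssocRing R) (p : ℕ),
      p.Prime ∧ 3 ≤ p ∧ (∀ r : R, p • r = 0) ∧
      IsSimpleOrder (TwoSidedIdeal R) ∧ (∃ a b : R, a * b ≠ 0) ∧
      ∃ X : Set R,
        (∀ S : NonUnitalSubring R, X ⊆ (S : Set R) → S = ⊤) ∧
        ∀ f : R → R, ∃ φ : R →ₙ+* R, ∀ x ∈ X, φ x = f x :=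
  main_abs eps_X ofX_ne subst_exists

end Pool.Agent.Helper36.SF
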