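import Pool.Agent.Helper36.SF.Ideals

set_option autoImplicit false
set_option linter.unusedSectionVars false

namespace Pool.Agent.Helper36.SF

open AS3 Polynomial

section
variable {Q : Type} [CommRing Q] [IsDomain Q] [CharP Q 3] [AS3 Q]

/-- evaluation of polynomials at `c` -/
noncomputable def phi (c : Q) : (ZMod 3)[X] →+* Q :=
  eval₂RingHom (ZMod.castHom (dvd_refl 3) Q) c

variable {c : Q}

lemma phi_X : phi c X = c := by simp [phi]

lemma eps_phi (hc : eps c = 0) (g : (ZMod 3)[X]) : eps (phi c g) = g.coeff 0 := by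
  have h : (eps : Q →+* ZMod 3).comp (phi c) = (evalRingHom (0 : ZMod 3)) := by
    apply Polynomial.ringHom_ext
    · intro a
      have : ((eps : Q →+* ZMod 3).comp (ZMod.castHom (dvd_refl 3) Q)) = RingHom.id _ :=
        Subsingleton.elim _ _
      have h2 := RingHom.congr_fun this a
      simpa [phi] using h2
    · simp [phi, hc]
  have h2 := RingHom.congr_fun h g
  rw [RingHom.comp_apply] at h2
  rw [h2]
  simp [coeff_zero_eq_eval_zero]

lemma A_nsmul {a : Q} (ha : InA c a) (n : ℕ) : InA c ((n : Q) * a) := by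
  induction n with
  | zero => simpa using A_zero
  | succ n ih =>
    have : ((n + 1 : ℕ) : Q) * a = (n : Q) * a + a := by push_cast; ring
    rw [this]; exact A_add ih ha

lemma A_phi {a : Q} (ha : InA c a) (g : (ZMod 3)[X]) : InA c (phi c g * a) := by
  induction g using Polynomial.induction_on' with
  | add p q hp hq => rw [map_add, add_mul]; exact A_add hp hq
  | monomial n k =>
    have h1 : phi c (monomial n k) * a = (k.val : Q) * (c ^ n * a) := by
      simp only [phi, coe_eval₂RingHom, eval₂_monomial, ZMod.castHom_apply]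
      rw [ZMod.natCast_val, mul_assoc]
    rw [h1]
    apply A_nsmul
    rcases n with _ | n
    · simpa using ha
    · exact A_mul (A_pow A_c n) ha

variable {I : TwoSidedIdeal (A c)}

lemma J_nsmul {a : Q} (ha : InJ I a) (n : ℕ) : InJ I ((n : Q) * a) := by
  induction n with
  | zero => simpa using J_zero
  | succ n ih =>
    have : ((n + 1 : ℕ) : Q) * a = (n : Q) * a + a := by push_cast; ring
    rw [this]; exact J_add ih ha

lemma J_phi {a : Q} (ha : InJ I a) (g : (ZMod 3)[X]) : InJ I (phi c g * a) := by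
  induction g using Polynomial.induction_on' with
  | add p q hp hq => rw [map_add, add_mul]; exact J_add hp hq
  | monomial n k =>
    have h1 : phi c (monomial n k) * a = (k.val : Q) * (c ^ n * a) := by
      simp only [phi, coe_eval₂RingHom, eval₂_monomial, ZMod.castHom_apply]
      rw [ZMod.natCast_val, mul_assoc]
    rw [h1]
    apply J_nsmul
    rcases n with _ | n
    · simpa using ha
    · rw [mul_comm]; exact J_mul ha (A_pow A_c n)

lemma J_eval₂ {f : Q} (hf : InJ I f) (q : (ZMod 3)[X][X]) :
    InJ I (q.eval₂ (phi c) f * f) := by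
  induction q using Polynomial.induction_on' with
  | add p q hp hq => rw [eval₂_add, add_mul]; exact J_add hp hq
  | monomial n k =>
    rw [eval₂_monomial, mul_assoc]
    apply J_phi
    rw [← pow_succ]
    exact J_pow hf n

lemma exists_poly {f : Q} (hf : f ≠ 0) (hfJ : InJ I f) (n : ℕ) :
    ∀ p : (ZMod 3)[X][X], p.natDegree ≤ n → p ≠ 0 → p.eval₂ (phi c) f = 0 →
      ∃ g : (ZMod 3)[X], g ≠ 0 ∧ InJ I (phi c g) := by
  induction n with
  | zero =>
    intro p hp hp0 hev
    rw [Polynomial.eq_C_of_natDegree_le_zero hp, eval₂_C] at hev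
    refine ⟨p.coeff 0, ?_, ?_⟩
    · intro h
      apply hp0
      rw [Polynomial.eq_C_of_natDegree_le_zero hp, h, C_0]
    · rw [hev]; exact J_zero
  | succ n ih =>
    intro p hp hp0 hev
    have hdecomp := Polynomial.divX_mul_X_add p
    have hev2 : (divX p).eval₂ (phi c) f * f + phi c (p.coeff 0) = 0 := by
      have : ((divX p * X + C (p.coeff 0)) : (ZMod 3)[X][X]).eval₂ (phi c) f = 0 := by
        rw [hdecomp]; exact hev
      rw [eval₂_add, eval₂_mul, eval₂_X, eval₂_C] at this
      exact this
    by_cases h0 : p.coeff 0 = 0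
    · rw [h0, map_zero, add_zero] at hev2
      have hev3 : (divX p).eval₂ (phi c) f = 0 := by
        rcases mul_eq_zero.mp hev2 with h | h
        · exact h
        · exact absurd h hf
      apply ih (divX p) _ _ hev3
      · rw [natDegree_divX_eq_natDegree_tsub_one]; omega
      · intro h
        apply hp0
        rw [← hdecomp, h, h0]; simp
    · refine ⟨p.coeff 0, h0, ?_⟩
      have : phi c (p.coeff 0) = -((divX p).eval₂ (phi c) f * f) := by
        linear_combination hev2
      rw [this]
      exact J_neg (J_eval₂ hfJ _)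

lemma A_integral {a : Q} (ha : InA c a) :
    ∃ p : (ZMod 3)[X][X], p.Monic ∧ p.eval₂ (phi c) a = 0 := by
  letI : Algebra (ZMod 3)[X] Q := (phi c).toAlgebra
  change IsIntegral (ZMod 3)[X] a
  have hP : ∀ a b : Q, IsIntegral (ZMod 3)[X] a → IsIntegral (ZMod 3)[X] b →
      IsIntegral (ZMod 3)[X] (P a b) := by
    intro a b ha hb
    have hz : IsIntegral (ZMod 3)[X] (D a b) := by
      unfold D
      exact (ha.mul (hb.pow 3)).sub ((ha.pow 3).mul hb)
    have hw : IsIntegral (integralClosure (ZMod 3)[X] Q) (br a b) := by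
      refine ⟨X ^ 81 - X ^ 27 + C (⟨D a b, hz⟩ : integralClosure (ZMod 3)[X] Q), ?_, ?_⟩
      · monicity!
      · have h1 : L (br a b) = D a b := L_R (eps_D a b)
        unfold L at h1
        simp only [eval₂_add, eval₂_sub, eval₂_X_pow, eval₂_C]
        change br a b ^ 81 - br a b ^ 27 + D a b = 0
        rw [← h1]; ring
    have hw2 : IsIntegral (ZMod 3)[X] (br a b) := isIntegral_trans _ hw
    unfold P
    exact (ha.mul hb).add hw2
  refine A_induction (p := fun x => IsIntegral (ZMod 3)[X] x) ?_ isIntegral_zero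
    (fun a b ha hb => ha.add hb) (fun a ha => ha.neg) hP ha
  have : c = algebraMap (ZMod 3)[X] Q X := by
    change c = phi c X
    rw [phi_X]
  rw [this]
  exact isIntegral_algebraMap

/-- a nonzero ideal contains the generator -/
lemma J_c (hc : eps c = 0) {f : Q} (hf : f ≠ 0) (hfJ : InJ I f) : InJ I c := by
  obtain ⟨p, hp, hev⟩ := A_integral hfJ.1
  obtain ⟨g, hg, hgJ⟩ := exists_poly hf hfJ p.natDegree p le_rfl hp.ne_zero hev
  have hg0 : g.coeff 0 = 0 := by rw [← eps_phi hc, A_eps hc hgJ.1]
  obtain ⟨h, hgh, hXh⟩ := exists_eq_pow_rootMultiplicity_mul_and_not_dvd g hg 0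
  set m := rootMultiplicity 0 g with hm
  rw [C_0, sub_zero] at hgh hXh
  have hmpos : m ≠ 0 := by
    intro h0
    rw [h0, pow_zero, one_mul] at hgh
    apply hXh
    rw [← hgh]
    exact X_dvd_iff.mpr hg0
  obtain ⟨m', hm'⟩ := Nat.exists_eq_succ_of_ne_zero hmpos
  have hcop : IsCoprime (X ^ m) h := by
    apply IsCoprime.pow_left
    exact (Polynomial.irreducible_X.coprime_iff_not_dvd).mpr hXh
  obtain ⟨u, v, huv⟩ := hcop
  have hcm : InA c (c ^ m) := by rw [hm']; exact A_pow A_c m'
  -- the idempotent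
  have hphi_pow : phi c (X ^ m) = c ^ m := by rw [map_pow, phi_X]
  have heA : InA c (phi c (u * X ^ m)) := by
    rw [map_mul, hphi_pow]; exact A_phi hcm u
  have he2 : InJ I (phi c (u * X ^ m) ^ 2 - phi c (u * X ^ m)) := by
    rw [← map_pow, ← map_sub]
    have : (u * X ^ m) ^ 2 - u * X ^ m = -(u * v) * g := by
      rw [hgh]
      have h1 : v * h = 1 - u * X ^ m := by linear_combination huv
      linear_combination (u * X ^ m) * h1
    rw [this, map_mul]
    exact J_phi hgJ _
  have heJ : InJ I (phi c (u * X ^ m)) := J_idem hc heA he2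
  have hcmJ : InJ I (c ^ m) := by
    rw [← hphi_pow]
    have : (X ^ m : (ZMod 3)[X]) = X ^ m * (u * X ^ m) + v * g := by
      rw [hgh]
      linear_combination -(X ^ m) * huv
    rw [this, map_add, map_mul _ v g, map_mul _ (X ^ m) (u * X ^ m)]
    exact J_add (J_phi heJ _) (J_phi hgJ _)
  -- from `c ^ m` to `c`
  have hpow : ∀ k : ℕ, InJ I (c ^ (3 ^ k)) → InJ I c := by
    intro k
    induction k with
    | zero => intro h; simpa using h
    | succ k ih =>
      intro h
      apply ih
      apply J_root hc h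
      rw [← pow_mul, pow_succ]
  apply hpow m
  have hle : m ≤ 3 ^ m := (Nat.lt_pow_self (by norm_num)).le
  rcases Nat.lt_or_ge m (3 ^ m) with hlt | hge
  · have : c ^ 3 ^ m = c ^ m * c ^ (3 ^ m - m - 1 + 1) := by
      rw [← pow_add]; congr 1; omega
    rw [this]
    exact J_mul hcmJ (A_pow A_c _)
  · have : 3 ^ m = m := le_antisymm hge hle
    rw [this]; exact hcmJ

lemma I_top (h : InJ I c) : I = ⊤ := by
  have key : ∀ x : Q, InA c x → InJ I x := by
    intro x hx
    exact A_induction (p := fun x => InJ I x) h J_zero (fun _ _ => J_add) (fun _ => J_neg)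
      (fun a b ha hb => J_P_left ha hb.1) hx
  apply TwoSidedIdeal.ext
  intro x
  simp only [TwoSidedIdeal.mem_top, iff_true]
  obtain ⟨_, h2⟩ := key x.1 x.2
  exact h2

theorem simple (hc : eps c = 0) (hc0 : c ≠ 0) : IsSimpleOrder (TwoSidedIdeal (A c)) := by
  have hnt : (⊥ : TwoSidedIdeal (A c)) ≠ ⊤ := by
    intro h
    have h1 : (⟨c, A_c (Q := Q) (c := c)⟩ : A c) ∈ (⊤ : TwoSidedIdeal (A c)) := by simp
    rw [← h, TwoSidedIdeal.mem_bot] at h1
    have h2 : (⟨c, A_c (Q := Q) (c := c)⟩ : A c).1 = (0 : A c).1 := congrArg Subtype.val h1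
    exact hc0 h2
  haveI : Nontrivial (TwoSidedIdeal (A c)) := ⟨⟨⊥, ⊤, hnt⟩⟩
  refine ⟨?_⟩
  intro I
  by_cases hI : ∃ f : A c, f ∈ I ∧ f ≠ 0
  · right
    obtain ⟨f, hf, hf0⟩ := hI
    apply I_top
    apply J_c hc (f := f.1)
    · intro h
      apply hf0
      apply Subtype.ext
      exact h
    · exact ⟨f.2, hf⟩
  · left
    push Not at hI
    apply TwoSidedIdeal.ext
    intro x
    rw [TwoSidedIdeal.mem_bot]
    exact ⟨fun h => hI x h, fun h => by rw [h]; exact I.zero_mem⟩

end

end Pool.Agent.Helper36.SF
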